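import Pool.Agent.H975R2.QG.Ent

/-!
# `8G ± 5π²/6`: determinant bound in a node basis
-/

open Polynomial

namespace Pool.Agent.QG

open Pool.Agent.H337R2

noncomputable section

variable {p : ℕ} [hp : Fact p.Prime]

/-- numerator `∏_{i < 2n} (X - i)` -/
def UU (n : ℕ) : ℚ[X] := ∏ i ∈ Finset.range (2 * n), (X + C (((-(i : ℤ) : ℤ)) : ℚ))

/-- number of zeros in the class of `j` -/
def rU (p n j : ℕ) : ℕ := ((Finset.range (2 * n)).filter fun i : ℕ => (p : ℤ) ∣ -(i : ℤ) - j).card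

/-- number of elements of `S` in the class of `j` -/
def cI (p : ℕ) (S : Finset ℕ) (j : ℕ) : ℕ := (S.filter fun i : ℕ => (p : ℤ) ∣ (i : ℤ) - j).card

/-- `x(j) = 2 · removed - zeros` -/
def xx (p n : ℕ) (S : Finset ℕ) (j : ℕ) : ℤ := 2 * ((cS p n j : ℤ) - cI p S j) - rU p n j

/-- indicator of the same class -/
def ic (p k j : ℕ) : ℕ := if (p : ℤ) ∣ (k : ℤ) - j then 1 else 0

lemma cI_erase {S : Finset ℕ} {k : ℕ} (hk : k ∈ S) (j : ℕ) : cI p (S.erase k) j + ic p k j = cI p S j := by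
  unfold cI ic
  rw [Finset.filter_erase]
  split_ifs with h
  · rw [Finset.card_erase_of_mem (Finset.mem_filter.2 ⟨hk, h⟩)]
    have : 0 < (S.filter fun i : ℕ => (p : ℤ) ∣ (i : ℤ) - j).card :=
      Finset.card_pos.2 ⟨k, Finset.mem_filter.2 ⟨hk, h⟩⟩
    omega
  · have hn : k ∉ (S.filter fun i : ℕ => (p : ℤ) ∣ (i : ℤ) - j) := fun h' => h (Finset.mem_filter.1 h').2
    rw [Finset.erase_eq_self.2 hn, add_zero]

lemma PB_UU (n j : ℕ) : PB p (p : ℚ) (((p : ℚ)⁻¹) ^ rU p n j) (TS (-(j : ℚ)) (UU n)) :=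
  PB_prod_lin (Finset.range (2 * n)) (fun i => -(i : ℤ)) j

lemma PB_nd (S : Finset ℕ) (j : ℕ) : PB p (p : ℚ) (((p : ℚ)⁻¹) ^ cI p S j) (TS (-(j : ℚ)) (Pool.Agent.LP.nd S)) := by
  have h := PB_prod_lin (p := p) S (fun i => (i : ℤ)) j
  unfold Pool.Agent.LP.nd cI
  simpa using h

lemma PB_entry (n : ℕ) {S : Finset ℕ} {k l : ℕ} (hk : k ∈ S) (hl : l ∈ S) (j : ℕ) :
    PB p (p : ℚ) (((p : ℚ)⁻¹) ^ (rU p n j + (cI p (S.erase k) j + cI p (S.erase l) j)))
      (TS (-(j : ℚ)) (UU n * (Pool.Agent.LP.nd (S.erase k) * Pool.Agent.LP.nd (S.erase l)))) := by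
  have hpos := pz_pos (p := p)
  rw [map_mul, map_mul, pow_add, pow_add]
  exact PB.mul hpos.le (by positivity) (by positivity) (PB_UU n j)
    (PB.mul hpos.le (by positivity) (by positivity) (PB_nd _ j) (PB_nd _ j))

/-- exponents of the rows -/
def yy (p n : ℕ) (S : Finset ℕ) (g : ℕ → ℕ) (k : ℕ) : ℤ := 2 + xx p n S k - g k

lemma ic_congr {k j : ℕ} (h : (p : ℤ) ∣ (k : ℤ) - j) (i : ℕ) :
    ((p : ℤ) ∣ (i : ℤ) - k) ↔ ((p : ℤ) ∣ (i : ℤ) - j) := by
  constructor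
  · intro h1
    have : (i : ℤ) - j = ((i : ℤ) - k) + ((k : ℤ) - j) := by ring
    rw [this]; exact dvd_add h1 h
  · intro h1
    have : (i : ℤ) - k = ((i : ℤ) - j) - ((k : ℤ) - j) := by ring
    rw [this]; exact dvd_sub h1 h

lemma cI_congr {S : Finset ℕ} {k j : ℕ} (h : (p : ℤ) ∣ (k : ℤ) - j) : cI p S k = cI p S j := by
  unfold cI
  congr 1
  exact Finset.filter_congr fun i _ => ic_congr h i

lemma cS_congr {n k j : ℕ} (h : (p : ℤ) ∣ (k : ℤ) - j) : cS p n k = cS p n j := cI_congr (S := sN n) h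

lemma rU_congr {n k j : ℕ} (h : (p : ℤ) ∣ (k : ℤ) - j) : rU p n k = rU p n j := by
  unfold rU
  congr 1
  refine Finset.filter_congr fun i _ => ?_
  constructor
  · intro h1
    have : -(i : ℤ) - j = (-(i : ℤ) - k) + ((k : ℤ) - j) := by ring
    rw [this]; exact dvd_add h1 h
  · intro h1
    have : -(i : ℤ) - k = (-(i : ℤ) - j) - ((k : ℤ) - j) := by ring
    rw [this]; exact dvd_sub h1 h

lemma xx_congr {n : ℕ} {S : Finset ℕ} {k j : ℕ} (h : (p : ℤ) ∣ (k : ℤ) - j) : xx p n S k = xx p n S j := by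
  unfold xx
  rw [cS_congr h, cI_congr h, rU_congr h]

/-- the bound of an entry, squared -/
theorem entry_le {n : ℕ} (hp2 : 8 * n < p ^ 2) {S : Finset ℕ} (hS : S ⊆ sN n) {q u : ℚ} {f1 f2 : ℕ → ℚ}
    (hq : padicNorm p q ≤ 1) (hqu : padicNorm p (q * u) ≤ 1)
    (hf1 : ∀ j ∈ sN n, padicNorm p (f1 j) ≤ p) (hf2 : ∀ j ∈ sN n, padicNorm p (f2 j) ≤ (p : ℚ) ^ 2)
    (hx : ∀ j ∈ sN n, xx p n S j ≤ 1) (hx' : ∀ j ∈ S, -1 ≤ xx p n S j) (g : ℕ → ℕ)
    (hg : ∀ k ∈ S, g k ≤ 1) (hg1 : ∀ k ∈ S, g k = 1 → xx p n S k = 0 ∧ (∀ j ∈ sN n, (p : ℤ) ∣ (k : ℤ) - j → j = k) ∧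
      padicNorm p (f1 k) ≤ 1 ∧ padicNorm p (f2 k) ≤ 1) {k l : ℕ} (hk : k ∈ S) (hl : l ∈ S) :
    (padicNorm p (q * xg n u f1 f2 (UU n * (Pool.Agent.LP.nd (S.erase k) * Pool.Agent.LP.nd (S.erase l))))) ^ 2 ≤
      (p : ℚ) ^ (yy p n S g k) * (p : ℚ) ^ (yy p n S g l) := by
  have hpos := pz_pos (p := p)
  have hp1 : (1 : ℚ) ≤ p := by exact_mod_cast hp.out.one_le
  rw [← zpow_add₀ hpos.ne']
  -- choose the half exponent
  set Y := yy p n S g k + yy p n S g l with hY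
  have key : padicNorm p (q * xg n u f1 f2 (UU n * (Pool.Agent.LP.nd (S.erase k) * Pool.Agent.LP.nd (S.erase l)))) ≤
      (p : ℚ) ^ (Y / 2) := by
    unfold xg
    rw [Finset.mul_sum]
    refine padicNorm.sum_le' (fun j hj => ?_) (by positivity)
    have hn := node_le hp2 hj _ (a := f1 j) (b := f2 j) (PB_entry n hk hl j) hq hqu
    have h1 := cI_erase (p := p) hk j
    have h2 := cI_erase (p := p) hl j
    have hxj := hx j hj
    have hxk := hx' k hk
    have hxl := hx' l hl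
    have hxk2 := hx k (hS hk)
    have hxl2 := hx l (hS hl)
    have hgk := hg k hk
    have hgl := hg l hl
    have hE : 2 * (cS p n j : ℤ) - ((rU p n j + (cI p (S.erase k) j + cI p (S.erase l) j) : ℕ) : ℤ) =
        xx p n S j + ic p k j + ic p l j := by
      unfold xx
      push_cast
      omega
    by_cases hkj : (p : ℤ) ∣ (k : ℤ) - j
    · have ek : ic p k j = 1 := by unfold ic; rw [if_pos hkj]
      have exk := xx_congr (n := n) (S := S) hkj
      by_cases hlj : (p : ℤ) ∣ (l : ℤ) - j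
      · have el : ic p l j = 1 := by unfold ic; rw [if_pos hlj]
        have exl := xx_congr (n := n) (S := S) hlj
        by_cases hgood : g k = 1 ∨ g l = 1
        · -- then `j = k = l`
          have hjkl : j = k ∧ j = l := by
            rcases hgood with h | h
            · have e1 := (hg1 k hk h).2.1 j hj hkj
              have e2 := (hg1 k hk h).2.1 l (hS hl) (by
                have : (k : ℤ) - l = ((k : ℤ) - j) - ((l : ℤ) - j) := by ring
                rw [this]; exact dvd_sub hkj hlj)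
              exact ⟨e1, by omega⟩
            · have e1 := (hg1 l hl h).2.1 j hj hlj
              have e2 := (hg1 l hl h).2.1 k (hS hk) (by
                have : (l : ℤ) - k = ((l : ℤ) - j) - ((k : ℤ) - j) := by ring
                rw [this]; exact dvd_sub hlj hkj)
              exact ⟨by omega, e1⟩
          obtain ⟨e1, e2⟩ := hjkl
          have hgk1 : g k = 1 := by
            rcases hgood with h | h
            · exact h
            · rw [← e1, e2]; exact h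
          have hgl1 : g l = 1 := by rw [← e2, e1]; exact hgk1
          obtain ⟨c1, _, c3, c4⟩ := hg1 k hk hgk1
          refine (hn.2 (e1 ▸ c3) (e1 ▸ c4)).trans (zpow_le_zpow_right₀ hp1 ?_)
          rw [hE, hY]
          unfold yy
          omega
        · push Not at hgood
          refine (hn.1 (hf1 j hj) (hf2 j hj)).trans (zpow_le_zpow_right₀ hp1 ?_)
          rw [hE, hY]
          unfold yy
          omega
      · have el : ic p l j = 0 := by unfold ic; rw [if_neg hlj]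
        by_cases hgood : g k = 1
        · obtain ⟨c1, c2, c3, c4⟩ := hg1 k hk hgood
          have e1 := c2 j hj hkj
          refine (hn.2 (e1 ▸ c3) (e1 ▸ c4)).trans (zpow_le_zpow_right₀ hp1 ?_)
          rw [hE, hY]
          unfold yy
          omega
        · refine (hn.1 (hf1 j hj) (hf2 j hj)).trans (zpow_le_zpow_right₀ hp1 ?_)
          rw [hE, hY]
          have hl0 : g l = 1 → xx p n S l = 0 := fun h => (hg1 l hl h).1
          unfold yy
          omega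
    · have ek : ic p k j = 0 := by unfold ic; rw [if_neg hkj]
      have hk0 : g k = 1 → xx p n S k = 0 := fun h => (hg1 k hk h).1
      have hl0 : g l = 1 → xx p n S l = 0 := fun h => (hg1 l hl h).1
      by_cases hlj : (p : ℤ) ∣ (l : ℤ) - j
      · have el : ic p l j = 1 := by unfold ic; rw [if_pos hlj]
        have exl := xx_congr (n := n) (S := S) hlj
        by_cases hgood : g l = 1
        · obtain ⟨c1, c2, c3, c4⟩ := hg1 l hl hgood
          have e1 := c2 j hj hlj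
          refine (hn.2 (e1 ▸ c3) (e1 ▸ c4)).trans (zpow_le_zpow_right₀ hp1 ?_)
          rw [hE, hY]
          unfold yy
          omega
        · refine (hn.1 (hf1 j hj) (hf2 j hj)).trans (zpow_le_zpow_right₀ hp1 ?_)
          rw [hE, hY]
          unfold yy
          omega
      · have el : ic p l j = 0 := by unfold ic; rw [if_neg hlj]
        refine (hn.1 (hf1 j hj) (hf2 j hj)).trans (zpow_le_zpow_right₀ hp1 ?_)
        rw [hE, hY]
        unfold yy
        omega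
  have h0 : 0 ≤ padicNorm p (q * xg n u f1 f2 (UU n * (Pool.Agent.LP.nd (S.erase k) * Pool.Agent.LP.nd (S.erase l)))) :=
    padicNorm.nonneg _
  calc _ ≤ ((p : ℚ) ^ (Y / 2)) ^ 2 := pow_le_pow_left₀ h0 key 2
    _ = (p : ℚ) ^ (Y / 2 * 2) := by rw [← zpow_natCast, ← zpow_mul]; rfl
    _ ≤ _ := zpow_le_zpow_right₀ hp1 (by omega)

/-- determinants, squared entries -/
lemma det_sq {m : ℕ} (M : Matrix (Fin m) (Fin m) ℚ) (r : Fin m → ℚ) (hr : ∀ i, 0 ≤ r i)
    (hM : ∀ i j, (padicNorm p (M i j)) ^ 2 ≤ r i * r j) : padicNorm p M.det ≤ ∏ j, r j := by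
  have hprod : 0 ≤ ∏ j, r j := Finset.prod_nonneg fun j _ => hr j
  rw [Matrix.det_apply]
  refine padicNorm.sum_le' (fun σ _ => ?_) hprod
  have h1 : padicNorm p (Equiv.Perm.sign σ • ∏ i, M (σ i) i) = padicNorm p (∏ i, M (σ i) i) := by
    rcases Int.units_eq_one_or (Equiv.Perm.sign σ) with h | h <;> rw [h] <;> simp
  rw [h1, Pool.Agent.LP.norm_prod]
  have h2 : (∏ i, padicNorm p (M (σ i) i)) ^ 2 ≤ (∏ j, r j) ^ 2 := by
    rw [← Finset.prod_pow]
    refine (Finset.prod_le_prod (fun i _ => by positivity) fun i _ => hM (σ i) i).trans_eq ?_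
    rw [Finset.prod_mul_distrib, Equiv.prod_comp σ r, pow_two]
  exact (pow_le_pow_iff_left₀ (Finset.prod_nonneg fun i _ => padicNorm.nonneg _) hprod two_ne_zero).1 h2

/-- per prime bound of the Hankel determinant -/
theorem det_le {n m : ℕ} (hp2 : 8 * n < p ^ 2) {S : Finset ℕ} (hS : S ⊆ sN n) (hcard : S.card = m)
    (L : ℚ[X] →ₗ[ℚ] ℚ) {q u : ℚ} {f1 f2 : ℕ → ℚ} (hL : ∀ P, L P = xg n u f1 f2 (UU n * P))
    (hq : padicNorm p q ≤ 1) (hqu : padicNorm p (q * u) ≤ 1)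
    (hf1 : ∀ j ∈ sN n, padicNorm p (f1 j) ≤ p) (hf2 : ∀ j ∈ sN n, padicNorm p (f2 j) ≤ (p : ℚ) ^ 2)
    (hx : ∀ j ∈ sN n, xx p n S j ≤ 1) (hx' : ∀ j ∈ S, -1 ≤ xx p n S j) (g : ℕ → ℕ)
    (hg : ∀ k ∈ S, g k ≤ 1) (hg1 : ∀ k ∈ S, g k = 1 → xx p n S k = 0 ∧ (∀ j ∈ sN n, (p : ℤ) ∣ (k : ℤ) - j → j = k) ∧
      padicNorm p (f1 k) ≤ 1 ∧ padicNorm p (f2 k) ≤ 1) :
    padicNorm p (q ^ m * (Pool.Agent.LP.HkQ L m).det) ≤
      (p : ℚ) ^ (∑ k ∈ S, ((cI p S k : ℤ) - 1 + yy p n S g k)) := by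
  have hpos := pz_pos (p := p)
  set ν : Fin m → ℕ := fun i => S.orderEmbOfFin hcard i with hνdef
  have hν : Function.Injective ν := (S.orderEmbOfFin hcard).injective
  have himg : Finset.univ.image ν = S := Finset.image_orderEmbOfFin_univ _ hcard
  have hmem : ∀ i : Fin m, ν i ∈ S := fun i => Finset.orderEmbOfFin_mem _ hcard i
  have hP : ∀ F : ℕ → ℚ, ∏ k ∈ S, F k = ∏ i : Fin m, F (ν i) := by
    intro F
    rw [← himg, Finset.prod_image (fun a _ b _ hab => hν hab)]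
  have hxinj : Function.Injective (Pool.Agent.LP.xv ν) := by
    intro i j hij
    unfold Pool.Agent.LP.xv at hij
    have h1 : ((ν i : ℕ) : ℚ) = ((ν j : ℕ) : ℚ) := neg_injective hij
    exact hν (by exact_mod_cast h1)
  have h1 := Pool.Agent.LP.norm_hankel_lag (p := p) L (Pool.Agent.LP.xv ν) hxinj
  have hlag : ∀ i : Fin m, Pool.Agent.LP.lag (Pool.Agent.LP.xv ν) i = Pool.Agent.LP.nd (S.erase (ν i)) := by
    intro i
    rw [Pool.Agent.LP.lag_xv ν hν, himg]
  -- the diagonal products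
  have h2 : padicNorm p (∏ i, (Pool.Agent.LP.lag (Pool.Agent.LP.xv ν) i).eval (Pool.Agent.LP.xv ν i)) =
      ∏ k ∈ S, (p : ℚ) ^ (-((cI p S k : ℤ) - 1)) := by
    rw [Pool.Agent.LP.norm_prod, hP]
    refine Finset.prod_congr rfl fun i _ => ?_
    rw [hlag, Pool.Agent.LP.nd_eval, Pool.Agent.LP.norm_prod]
    have h3 : ∀ j ∈ S.erase (ν i), padicNorm p (Pool.Agent.LP.xv ν i + (j : ℚ)) =
        if (p : ℤ) ∣ (j : ℤ) - (ν i : ℕ) then (p : ℚ)⁻¹ else 1 := by
      intro j hj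
      rw [Finset.mem_erase] at hj
      have hj8 := hS hj.2
      have hi8 := hS (hmem i)
      unfold sN at hj8 hi8
      rw [Finset.mem_Icc] at hj8 hi8
      have e1 : Pool.Agent.LP.xv ν i + (j : ℚ) = (((j : ℤ) - (ν i : ℕ) : ℤ) : ℚ) := by
        unfold Pool.Agent.LP.xv
        push_cast
        ring
      have h0 : ((j : ℤ) - (ν i : ℕ)) ≠ 0 := by omega
      have h2 : |(j : ℤ) - (ν i : ℕ)| < (p : ℤ) ^ 2 := by
        have h3 : ((p : ℤ) ^ 2) = ((p ^ 2 : ℕ) : ℤ) := by push_cast; rfl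
        rw [abs_lt, h3]
        constructor <;> omega
      rw [e1]
      exact norm_small h0 h2
    rw [Finset.prod_congr rfl h3, Finset.prod_ite, Finset.prod_const, Finset.prod_const_one, mul_one]
    have h4 : (((S.erase (ν i)).filter fun j : ℕ => (p : ℤ) ∣ (j : ℤ) - (ν i : ℕ)).card : ℤ) = (cI p S (ν i) : ℤ) - 1 := by
      have := cI_erase (p := p) (hmem i) (ν i)
      have e2 : ic p (ν i) (ν i) = 1 := by unfold ic; simp
      rw [e2] at this
      unfold cI at this ⊢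
      omega
    rw [← h4, inv_pow, zpow_neg, zpow_natCast]
  have h5 : (Matrix.of fun i j : Fin m => q * L (Pool.Agent.LP.lag (Pool.Agent.LP.xv ν) i *
      Pool.Agent.LP.lag (Pool.Agent.LP.xv ν) j)).det = q ^ m *
      (Matrix.of fun i j : Fin m => L (Pool.Agent.LP.lag (Pool.Agent.LP.xv ν) i *
      Pool.Agent.LP.lag (Pool.Agent.LP.xv ν) j)).det := by
    have : (Matrix.of fun i j : Fin m => q * L (Pool.Agent.LP.lag (Pool.Agent.LP.xv ν) i *
      Pool.Agent.LP.lag (Pool.Agent.LP.xv ν) j)) = q • (Matrix.of fun i j : Fin m =>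
      L (Pool.Agent.LP.lag (Pool.Agent.LP.xv ν) i * Pool.Agent.LP.lag (Pool.Agent.LP.xv ν) j)) := by
      ext i j
      simp
    rw [this, Matrix.det_smul, Fintype.card_fin]
  have h6 : padicNorm p (Matrix.of fun i j : Fin m => q * L (Pool.Agent.LP.lag (Pool.Agent.LP.xv ν) i *
      Pool.Agent.LP.lag (Pool.Agent.LP.xv ν) j)).det ≤ ∏ k ∈ S, (p : ℚ) ^ yy p n S g k := by
    rw [hP]
    refine det_sq _ (fun i => (p : ℚ) ^ yy p n S g (ν i)) (fun i => by positivity) fun i j => ?_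
    rw [Matrix.of_apply, hL, hlag, hlag]
    exact entry_le hp2 hS hq hqu hf1 hf2 hx hx' g hg hg1 (hmem i) (hmem j)
  have h7 : ∏ k ∈ S, (p : ℚ) ^ (-((cI p S k : ℤ) - 1)) ≠ 0 :=
    Finset.prod_ne_zero_iff.2 fun k _ => zpow_ne_zero _ hpos.ne'
  have h8 : (∏ k ∈ S, (p : ℚ) ^ (-((cI p S k : ℤ) - 1))) * padicNorm p (q ^ m * (Pool.Agent.LP.HkQ L m).det) ≤
      ∏ k ∈ S, (p : ℚ) ^ yy p n S g k := by
    refine le_trans (le_of_eq ?_) h6
    rw [h5, padicNorm.mul, padicNorm.mul, h1, h2]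
    ring
  have h9 : (p : ℚ) ^ (∑ k ∈ S, ((cI p S k : ℤ) - 1 + yy p n S g k)) =
      (∏ k ∈ S, (p : ℚ) ^ (((cI p S k : ℤ) - 1))) * ∏ k ∈ S, (p : ℚ) ^ yy p n S g k := by
    rw [← Finset.prod_mul_distrib]
    have hz : ∀ (T : Finset ℕ) (F : ℕ → ℤ), (p : ℚ) ^ (∑ k ∈ T, F k) = ∏ k ∈ T, (p : ℚ) ^ F k := by
      intro T F
      induction T using Finset.induction_on with
      | empty => simp
      | insert a T ha ih => rw [Finset.sum_insert ha, Finset.prod_insert ha, zpow_add₀ hpos.ne', ih]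
    rw [hz]
    exact Finset.prod_congr rfl fun k _ => zpow_add₀ hpos.ne' _ _
  rw [h9]
  have h10 : (∏ k ∈ S, (p : ℚ) ^ (((cI p S k : ℤ) - 1))) * (∏ k ∈ S, (p : ℚ) ^ (-((cI p S k : ℤ) - 1))) = 1 := by
    rw [← Finset.prod_mul_distrib]
    refine Finset.prod_eq_one fun k _ => ?_
    rw [← zpow_add₀ hpos.ne', add_neg_cancel, zpow_zero]
  calc padicNorm p (q ^ m * (Pool.Agent.LP.HkQ L m).det) =
      (∏ k ∈ S, (p : ℚ) ^ (((cI p S k : ℤ) - 1))) *
        ((∏ k ∈ S, (p : ℚ) ^ (-((cI p S k : ℤ) - 1))) * padicNorm p (q ^ m * (Pool.Agent.LP.HkQ L m).det)) := by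
        rw [← mul_assoc, h10, one_mul]
    _ ≤ _ := mul_le_mul_of_nonneg_left h8 (Finset.prod_nonneg fun k _ => by positivity)

end

end Pool.Agent.QG
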