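import Mathlib

/-!
# `8G ± 5π²/6`: p-adic bounds for the Loewner matrix

`s_k = ∑_{j<k} 16/(4j+a)² - ∑_{1≤j<k} 1/j²`, `g_k = ∑_{j<k} 4/(4j+a) - ∑_{1≤j<k} 1/j`,
`M_{kk} = θ - s_k`, `M_{kl} = (g_l - g_k)/(l - k)`, `1 ≤ k, l ≤ h`.
-/

namespace Pool.Agent.QG

/-- `s_k` -/
def sk (a k : ℕ) : ℚ :=
  ∑ j ∈ Finset.range k, 16 / (4 * (j : ℚ) + a) ^ 2 - ∑ j ∈ Finset.Ico 1 k, 1 / (j : ℚ) ^ 2

/-- `g_k` -/
def gk (a k : ℕ) : ℚ :=
  ∑ j ∈ Finset.range k, 4 / (4 * (j : ℚ) + a) - ∑ j ∈ Finset.Ico 1 k, 1 / (j : ℚ)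

/-- the Loewner matrix, rows and columns `k = i + 1`, `i < h` -/
def QM (a h : ℕ) (θ : ℚ) : Matrix (Fin h) (Fin h) ℚ := Matrix.of fun i j =>
  if i = j then θ - sk a ((i : ℕ) + 1)
  else (gk a ((j : ℕ) + 1) - gk a ((i : ℕ) + 1)) / (((j : ℕ) : ℚ) - ((i : ℕ) : ℚ))

section

variable {p : ℕ} [Fact p.Prime]

lemma n_mul {a b A B : ℚ} (ha : padicNorm p a ≤ A) (hb : padicNorm p b ≤ B) :
    padicNorm p (a * b) ≤ A * B := by
  rw [padicNorm.mul]
  exact mul_le_mul ha hb (padicNorm.nonneg _) ((padicNorm.nonneg _).trans ha)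

lemma n_sub {a b A : ℚ} (ha : padicNorm p a ≤ A) (hb : padicNorm p b ≤ A) :
    padicNorm p (a - b) ≤ A := (padicNorm.sub).trans (max_le ha hb)

lemma n_inv_nat {j k : ℕ} (hj : 1 ≤ j) (hk : j < p ^ (k + 1)) : padicNorm p ((j : ℚ)⁻¹) ≤ p ^ k := by
  have hp1 : 1 < p := (Fact.out : p.Prime).one_lt
  have hj0 : (j : ℚ) ≠ 0 := by positivity
  rw [padicNorm.eq_zpow_of_nonzero (inv_ne_zero hj0), padicValRat.inv, neg_neg, padicValRat.of_nat,
    zpow_natCast]
  refine pow_le_pow_right₀ (by exact_mod_cast hp1.le) ?_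
  have h1 : p ^ padicValNat p j ∣ j := pow_padicValNat_dvd
  have h2 : p ^ padicValNat p j ≤ j := Nat.le_of_dvd hj h1
  by_contra hc
  push Not at hc
  have h3 : p ^ (k + 1) ≤ p ^ padicValNat p j := Nat.pow_le_pow_right hp1.le hc
  omega

lemma n_inv_unit {j : ℕ} (hj : ¬ p ∣ j) : padicNorm p ((j : ℚ)⁻¹) ≤ 1 := by
  have h1 : padicNorm p (j : ℚ) = 1 := (padicNorm.nat_eq_one_iff (p := p) j).2 hj
  have h2 : ((j : ℚ)⁻¹) = 1 / (j : ℚ) := by rw [one_div]
  rw [h2, padicNorm.div, h1, padicNorm.one, div_one]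

/-- general bound of the two sums from a bound of the inverses -/
lemma n_sums {a k : ℕ} {B : ℚ} (hB : 1 ≤ B)
    (h1 : ∀ j, j < k → padicNorm p (((4 * j + a : ℕ) : ℚ)⁻¹) ≤ B)
    (h2 : ∀ j, 1 ≤ j → j < k → padicNorm p ((j : ℚ)⁻¹) ≤ B) :
    padicNorm p (gk a k) ≤ B ∧ padicNorm p (sk a k) ≤ B ^ 2 := by
  have hB0 : 0 ≤ B := by linarith
  have e4 : padicNorm p (4 : ℚ) ≤ 1 := by exact_mod_cast padicNorm.of_nat (p := p) 4
  have e16 : padicNorm p (16 : ℚ) ≤ 1 := by exact_mod_cast padicNorm.of_nat (p := p) 16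
  constructor
  · unfold gk
    refine n_sub ?_ ?_
    · refine padicNorm.sum_le' (fun j hj => ?_) hB0
      rw [Finset.mem_range] at hj
      have := n_mul e4 (h1 j hj)
      push_cast at this
      rwa [one_mul, ← div_eq_mul_inv] at this
    · refine padicNorm.sum_le' (fun j hj => ?_) hB0
      rw [Finset.mem_Ico] at hj
      have := h2 j hj.1 hj.2
      rwa [← one_div] at this
  · unfold sk
    refine n_sub ?_ ?_
    · refine padicNorm.sum_le' (fun j hj => ?_) (by positivity)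
      rw [Finset.mem_range] at hj
      have h3 := n_mul e16 (n_mul (h1 j hj) (h1 j hj))
      rw [one_mul, ← pow_two, ← pow_two] at h3
      refine le_trans (le_of_eq ?_) h3
      congr 1
      push_cast
      rw [div_eq_mul_inv, inv_pow]
    · refine padicNorm.sum_le' (fun j hj => ?_) (by positivity)
      rw [Finset.mem_Ico] at hj
      have h3 := n_mul (h2 j hj.1 hj.2) (h2 j hj.1 hj.2)
      rw [← pow_two, ← pow_two] at h3
      refine le_trans (le_of_eq ?_) h3
      congr 1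
      rw [one_div, inv_pow]

lemma n_det {m : ℕ} (M : Matrix (Fin m) (Fin m) ℚ) (r : Fin m → ℚ) (hr : ∀ i, 0 ≤ r i)
    (hM : ∀ i j, padicNorm p (M i j) ≤ r i * r j) : padicNorm p M.det ≤ ∏ j, r j ^ 2 := by
  rw [Matrix.det_apply]
  refine padicNorm.sum_le' (fun σ _ => ?_) (Finset.prod_nonneg fun j _ => by positivity)
  have h1 : padicNorm p (Equiv.Perm.sign σ • ∏ i, M (σ i) i) = padicNorm p (∏ i, M (σ i) i) := by
    rcases Int.units_eq_one_or (Equiv.Perm.sign σ) with h | h <;> rw [h] <;> simp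
  have h2 : ∀ (s : Finset (Fin m)) (f : Fin m → ℚ), padicNorm p (∏ i ∈ s, f i) = ∏ i ∈ s, padicNorm p (f i) := by
    intro s f
    induction s using Finset.induction_on with
    | empty => simp
    | insert a s ha ih => rw [Finset.prod_insert ha, Finset.prod_insert ha, padicNorm.mul, ih]
  rw [h1, h2]
  refine (Finset.prod_le_prod (fun i _ => padicNorm.nonneg _) fun i _ => hM (σ i) i).trans_eq ?_
  rw [Finset.prod_mul_distrib, Equiv.prod_comp σ r, ← Finset.prod_mul_distrib]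
  exact Finset.prod_congr rfl fun i _ => (pow_two _).symm

lemma n_diff_inv {i j : ℕ} (hij : i ≠ j) {κ h : ℕ} (hi : i < h) (hj : j < h) (hκ : h ≤ p ^ (κ + 1)) :
    padicNorm p ((((j : ℕ) : ℚ) - ((i : ℕ) : ℚ))⁻¹) ≤ (p : ℚ) ^ κ := by
  rcases lt_or_gt_of_ne hij with hc | hc
  · rw [← Nat.cast_sub hc.le]
    exact n_inv_nat (by omega) (by omega)
  · rw [← neg_sub, inv_neg, padicNorm.neg, ← Nat.cast_sub hc.le]
    exact n_inv_nat (by omega) (by omega)

lemma n_diff_unit {i j : ℕ} (hij : ¬ (p : ℤ) ∣ (j : ℤ) - i) :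
    padicNorm p ((((j : ℕ) : ℚ) - ((i : ℕ) : ℚ))⁻¹) ≤ 1 := by
  have h1 : padicNorm p (((j : ℕ) : ℚ) - ((i : ℕ) : ℚ)) = 1 := by
    have := (padicNorm.int_eq_one_iff (p := p) ((j : ℤ) - i)).2 hij
    push_cast at this
    exact this
  rw [← one_div, padicNorm.div, h1, padicNorm.one, div_one]

/-- crude bound, every prime (also `2`) -/
theorem P_crude {a h κ : ℕ} {θ : ℚ} (ha : 1 ≤ a) (ha3 : a ≤ 3) (hθ : padicNorm p θ ≤ 1) (hκ : 4 * h + 3 < p ^ (κ + 1)) :
    padicNorm p (QM a h θ).det ≤ (p : ℚ) ^ (2 * κ * h) := by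
  have hp1 : 1 < p := (Fact.out : p.Prime).one_lt
  have hp1' : (1 : ℚ) ≤ p := by exact_mod_cast hp1.le
  have hpk : (1 : ℚ) ≤ (p : ℚ) ^ κ := one_le_pow₀ hp1'
  have hs : ∀ k, k ≤ h → padicNorm p (gk a k) ≤ (p : ℚ) ^ κ ∧ padicNorm p (sk a k) ≤ ((p : ℚ) ^ κ) ^ 2 := by
    intro k hk
    exact n_sums hpk (fun j hj => n_inv_nat (by omega) (by omega)) (fun j hj hj' => n_inv_nat hj (by omega))
  refine (n_det (QM a h θ) (fun _ => (p : ℚ) ^ κ) (fun _ => by positivity) fun i j => ?_).trans_eq ?_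
  · have hi := i.2
    have hj := j.2
    unfold QM
    rw [Matrix.of_apply]
    split_ifs with hij
    · refine n_sub (hθ.trans (by nlinarith)) ?_
      have := (hs (i + 1) (by omega)).2
      rwa [pow_two] at this
    · rw [div_eq_mul_inv]
      refine n_mul (n_sub (hs _ (by omega)).1 (hs _ (by omega)).1) ?_
      exact n_diff_inv (fun h' => hij (Fin.ext h')) hi hj (by omega)
  · rw [Finset.prod_const, Finset.card_univ, Fintype.card_fin, ← pow_mul, ← pow_mul]
    congr 1
    ring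

/-- number of nodes `k` with `h - p < k ≤ j0` -/
def good (p h j0 : ℕ) : ℕ := min j0 h - (h - p)

/-- odd primes with `p² > 4h + 3`: `j0 < p`, no `4j + a`, `j < j0`, is divisible by `p` -/
theorem P_sq {a h j0 : ℕ} {θ : ℚ} (ha : 1 ≤ a) (ha3 : a ≤ 3) (hθ : padicNorm p θ ≤ 1) (hp2 : 4 * h + 3 < p ^ 2)
    (hj0 : j0 ≤ p) (hj : ∀ j, j < j0 → ¬ p ∣ 4 * j + a) :
    padicNorm p (QM a h θ).det ≤ (p : ℚ) ^ (2 * (h - good p h j0)) := by
  have hp1 : 1 < p := (Fact.out : p.Prime).one_lt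
  have hp1' : (1 : ℚ) ≤ p := by exact_mod_cast hp1.le
  have hs : ∀ k, k ≤ h → padicNorm p (gk a k) ≤ (p : ℚ) ∧ padicNorm p (sk a k) ≤ (p : ℚ) ^ 2 := by
    intro k hk
    refine n_sums hp1' (fun j hj => ?_) (fun j hj hj' => ?_)
    · have := n_inv_nat (p := p) (j := 4 * j + a) (k := 1) (by omega) (by simpa using (by omega : 4 * j + a < p ^ 2))
      simpa using this
    · have := n_inv_nat (p := p) (j := j) (k := 1) hj (by simpa using (by omega : j < p ^ 2))
      simpa using this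
  have hg : ∀ k, k ≤ j0 → padicNorm p (gk a k) ≤ 1 ∧ padicNorm p (sk a k) ≤ 1 := by
    intro k hk
    have := n_sums (p := p) (a := a) (k := k) (le_refl (1 : ℚ)) (fun j hj' => n_inv_unit (hj j (by omega)))
      (fun j hj1 hj2 => n_inv_unit (fun hd => by
        have := Nat.le_of_dvd (by omega) hd
        omega))
    simpa using this
  -- good nodes: `h - p < i + 1 ≤ j0`
  set r : Fin h → ℚ := fun i => if (h - p < (i : ℕ) + 1 ∧ (i : ℕ) + 1 ≤ j0) then 1 else (p : ℚ) with hr
  have hr1 : ∀ i, 1 ≤ r i := by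
    intro i
    rw [hr]
    simp only
    split_ifs
    · exact le_refl _
    · exact hp1'
  refine (n_det (QM a h θ) r (fun i => zero_le_one.trans (hr1 i)) fun i j => ?_).trans ?_
  · have hi := i.2
    have hj' := j.2
    unfold QM
    rw [Matrix.of_apply]
    split_ifs with hij
    · subst hij
      by_cases hgi : (h - p < (i : ℕ) + 1 ∧ (i : ℕ) + 1 ≤ j0)
      · have e1 : r i = 1 := by rw [hr]; simp only [if_pos hgi]
        rw [e1, one_mul]
        exact n_sub hθ (hg _ hgi.2).2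
      · have e1 : r i = p := by rw [hr]; simp only [if_neg hgi]
        rw [e1, ← pow_two]
        exact n_sub (hθ.trans (one_le_pow₀ hp1')) (hs _ (by omega)).2
    · rw [div_eq_mul_inv]
      have hijn : (i : ℕ) ≠ (j : ℕ) := fun h' => hij (Fin.ext h')
      by_cases hgi : (h - p < (i : ℕ) + 1 ∧ (i : ℕ) + 1 ≤ j0)
      · have hnd : ¬ (p : ℤ) ∣ ((j : ℕ) : ℤ) - ((i : ℕ) : ℤ) := by
          intro hd
          obtain ⟨z, hz⟩ := hd
          have hz0 : z ≠ 0 := by
            rintro rfl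
            rw [mul_zero] at hz
            omega
          rcases lt_or_gt_of_ne hz0 with hc | hc
          · have : (p : ℤ) * z ≤ (p : ℤ) * (-1) := mul_le_mul_of_nonneg_left (by omega) (by omega)
            omega
          · have : (p : ℤ) * 1 ≤ (p : ℤ) * z := mul_le_mul_of_nonneg_left (by omega) (by omega)
            omega
        have e1 : r i = 1 := by rw [hr]; simp only [if_pos hgi]
        by_cases hgj : (h - p < (j : ℕ) + 1 ∧ (j : ℕ) + 1 ≤ j0)
        · have e2 : r j = 1 := by rw [hr]; simp only [if_pos hgj]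
          rw [e1, e2]
          exact n_mul (n_sub (hg _ hgj.2).1 (hg _ hgi.2).1) (n_diff_unit hnd)
        · have e2 : r j = p := by rw [hr]; simp only [if_neg hgj]
          rw [e1, e2, mul_comm (1 : ℚ)]
          exact n_mul (n_sub (hs _ (by omega)).1 (hs _ (by omega)).1) (n_diff_unit hnd)
      · have e1 : r i = p := by rw [hr]; simp only [if_neg hgi]
        by_cases hgj : (h - p < (j : ℕ) + 1 ∧ (j : ℕ) + 1 ≤ j0)
        · have hnd : ¬ (p : ℤ) ∣ ((j : ℕ) : ℤ) - ((i : ℕ) : ℤ) := by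
            intro hd
            obtain ⟨z, hz⟩ := hd
            have hz0 : z ≠ 0 := by
              rintro rfl
              rw [mul_zero] at hz
              omega
            rcases lt_or_gt_of_ne hz0 with hc | hc
            · have : (p : ℤ) * z ≤ (p : ℤ) * (-1) := mul_le_mul_of_nonneg_left (by omega) (by omega)
              omega
            · have : (p : ℤ) * 1 ≤ (p : ℤ) * z := mul_le_mul_of_nonneg_left (by omega) (by omega)
              omega
          have e2 : r j = 1 := by rw [hr]; simp only [if_pos hgj]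
          rw [e1, e2]
          exact n_mul (n_sub (hs _ (by omega)).1 (hs _ (by omega)).1) (n_diff_unit hnd)
        · have e2 : r j = p := by rw [hr]; simp only [if_neg hgj]
          rw [e1, e2]
          refine n_mul (n_sub (hs _ (by omega)).1 (hs _ (by omega)).1) ?_
          have := n_diff_inv (p := p) (κ := 1) hijn hi hj' (by simpa using (by omega : h ≤ p ^ 2))
          simpa using this
  · -- product
    have h1 : ∏ j : Fin h, r j ^ 2 = ∏ k ∈ Finset.range h,
        (if (h - p < k + 1 ∧ k + 1 ≤ j0) then (1 : ℚ) else (p : ℚ) ^ 2) := by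
      rw [← Fin.prod_univ_eq_prod_range (fun k => if (h - p < k + 1 ∧ k + 1 ≤ j0) then (1 : ℚ) else (p : ℚ) ^ 2)]
      refine Finset.prod_congr rfl fun i _ => ?_
      rw [hr]
      simp only
      split_ifs <;> simp
    rw [h1, Finset.prod_ite, Finset.prod_const_one, one_mul, Finset.prod_const, ← pow_mul]
    refine pow_le_pow_right₀ hp1' (Nat.mul_le_mul_left 2 ?_)
    have h2 := Finset.card_filter_add_card_filter_not (s := Finset.range h)
      (fun k => h - p < k + 1 ∧ k + 1 ≤ j0)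
    rw [Finset.card_range] at h2
    have h3 : good p h j0 ≤ ((Finset.range h).filter fun k => h - p < k + 1 ∧ k + 1 ≤ j0).card := by
      have h4 : Finset.Ico (h - p) (min j0 h) ⊆ (Finset.range h).filter fun k => h - p < k + 1 ∧ k + 1 ≤ j0 := by
        intro k hk
        rw [Finset.mem_Ico] at hk
        rw [Finset.mem_filter, Finset.mem_range]
        omega
      have h5 := Finset.card_le_card h4
      rw [Nat.card_Ico] at h5
      exact h5
    omega

end

end Pool.Agent.QG
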