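import Pool.Agent.H337R2.PAdic
import Pool.Agent.H337R2.Count
import Pool.Agent.H975R2.QG.PA
import Pool.Agent.H422R2.LP.Red2

/-!
# `8G ± 5π²/6`: entries of the Hankel matrix in a node basis
-/

open Polynomial

namespace Pool.Agent.QG

open Pool.Agent.H337R2

noncomputable section

/-- poles `1, …, 8n` -/
def sN (n : ℕ) : Finset ℕ := Finset.Icc 1 (8 * n)

/-- order two -/
def two : ℕ → ℕ := fun _ => 2

/-- number of poles congruent to `k` -/
def cS (p n k : ℕ) : ℕ := ((sN n).filter fun m : ℕ => (p : ℤ) ∣ (m : ℤ) - k).card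

variable {p : ℕ} [hp : Fact p.Prime]

lemma pz_pos : (0 : ℚ) < p := by exact_mod_cast hp.out.pos

/-- linear factor in the class of the node -/
lemma PB_lin_dvd {z : ℤ} (h : (p : ℤ) ∣ z) :
    PB p (p : ℚ) (p : ℚ)⁻¹ (PowerSeries.X + PowerSeries.C (z : ℚ)) := by
  have hp0 : (0 : ℚ) < p := pz_pos
  apply PB.linX hp0.le (inv_nonneg.2 hp0.le)
  · have h1 := (padicNorm.dvd_iff_norm_le (p := p) (n := 1) (z := z)).1 (by simpa using h)
    simpa using h1
  · rw [inv_mul_cancel₀ hp0.ne']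

lemma PB_lin_int (z : ℤ) : PB p (p : ℚ) 1 (PowerSeries.X + PowerSeries.C (z : ℚ)) := by
  have hp0 : (1 : ℚ) ≤ p := by exact_mod_cast hp.out.one_le
  apply PB.linX (by linarith) zero_le_one (padicNorm.of_int z)
  rwa [one_mul]

/-- product of linear factors `X + a`, `a ∈ s` -/
lemma PB_prod_lin {ι : Type*} [DecidableEq ι] (s : Finset ι) (a : ι → ℤ) (k : ℕ) :
    PB p (p : ℚ) (((p : ℚ)⁻¹) ^ ((s.filter fun i => (p : ℤ) ∣ a i - k).card))
      (TS (-(k : ℚ)) (∏ i ∈ s, (X + C ((a i : ℤ) : ℚ)))) := by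
  rw [map_prod]
  have h1 : ((p : ℚ)⁻¹) ^ ((s.filter fun i => (p : ℤ) ∣ a i - k).card) =
      ∏ i ∈ s, (if (p : ℤ) ∣ a i - k then (p : ℚ)⁻¹ else 1) := by
    rw [Finset.prod_ite, Finset.prod_const, Finset.prod_const_one, mul_one]
  rw [h1]
  refine PB.prod s _ _ pz_pos.le (fun i _ => ?_) fun i _ => ?_
  · split_ifs
    · exact inv_nonneg.2 pz_pos.le
    · exact zero_le_one
  · rw [TS_lin]
    have h2 : -(k : ℚ) + ((a i : ℤ) : ℚ) = ((a i - k : ℤ) : ℚ) := by push_cast; ring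
    rw [h2]
    split_ifs with h
    · exact PB_lin_dvd h
    · exact PB_lin_int _

/-- partial fraction coefficients -/
lemma pfc_le {n k : ℕ} (hp2 : 8 * n < p ^ 2) (hk : k ∈ sN n) (P : ℚ[X]) {A : ℚ} (hA : 0 ≤ A)
    (hP : PB p (p : ℚ) A (TS (-(k : ℚ)) P)) (j : ℕ) :
    padicNorm p (pfc (sN n) two P k j) ≤ A * (p : ℚ) ^ (2 * (cS p n k - 1)) * (p : ℚ) ^ j := by
  have hpos := pz_pos (p := p)
  have h1 := pfc_bound (sN n) two P k (p : ℚ) A (fun m => if (p : ℤ) ∣ (m : ℤ) - k then (p : ℚ) else 1)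
    hpos.le hA hP (fun m hm _ => ?_) (fun m _ => ?_) j
  · refine h1.trans_eq ?_
    congr 2
    unfold two
    rw [Finset.prod_pow, Finset.prod_ite, Finset.prod_const, Finset.prod_const_one, mul_one, ← pow_mul,
      mul_comm]
    congr 2
    unfold cS
    rw [Finset.filter_erase, Finset.card_erase_of_mem]
    rw [Finset.mem_filter]
    exact ⟨hk, by simp⟩
  · unfold sN at hm hk
    rw [Finset.mem_erase, Finset.mem_Icc] at hm
    rw [Finset.mem_Icc] at hk
    have h0 : ((m : ℤ) - k) ≠ 0 := by omega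
    have h2 : |(m : ℤ) - k| < (p : ℤ) ^ 2 := by
      have h3 : ((p : ℤ) ^ 2) = ((p ^ 2 : ℕ) : ℤ) := by push_cast; rfl
      rw [abs_lt, h3]
      constructor <;> omega
    have h3 := norm_small (p := p) h0 h2
    push_cast at h3
    have hp1 : (1 : ℚ) ≤ p := by exact_mod_cast hp.out.one_le
    rw [h3]
    split_ifs
    · rw [inv_inv]
      exact ⟨le_rfl, le_rfl⟩
    · rw [inv_one]
      exact ⟨le_rfl, hp1⟩
  · split_ifs
    · exact hpos.le
    · exact zero_le_one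

/-- the functional -/
def xg (n : ℕ) (u : ℚ) (f1 f2 : ℕ → ℚ) (P : ℚ[X]) : ℚ :=
  ∑ k ∈ sN n, (pfc (sN n) two P k 0 * (u - f2 k) - pfc (sN n) two P k 1 * f1 k)

/-- one node -/
lemma node_le {n k : ℕ} (hp2 : 8 * n < p ^ 2) (hk : k ∈ sN n) (P : ℚ[X]) {q u a b : ℚ} {z : ℕ}
    (hP : PB p (p : ℚ) (((p : ℚ)⁻¹) ^ z) (TS (-(k : ℚ)) P)) (hq : padicNorm p q ≤ 1)
    (hqu : padicNorm p (q * u) ≤ 1) :
    (padicNorm p a ≤ p → padicNorm p b ≤ (p : ℚ) ^ 2 →
      padicNorm p (q * (pfc (sN n) two P k 0 * (u - b) - pfc (sN n) two P k 1 * a)) ≤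
        (p : ℚ) ^ (2 * (cS p n k : ℤ) - z)) ∧
    (padicNorm p a ≤ 1 → padicNorm p b ≤ 1 →
      padicNorm p (q * (pfc (sN n) two P k 0 * (u - b) - pfc (sN n) two P k 1 * a)) ≤
        (p : ℚ) ^ (2 * (cS p n k : ℤ) - z - 1)) := by
  have hpos := pz_pos (p := p)
  have hp1 : (1 : ℚ) ≤ p := by exact_mod_cast hp.out.one_le
  have h0 := pfc_le hp2 hk P (by positivity) hP 0
  have h1 := pfc_le hp2 hk P (by positivity) hP 1
  rw [pow_zero, mul_one] at h0
  rw [pow_one] at h1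
  have hc : 1 ≤ cS p n k := by
    unfold cS
    rw [Nat.one_le_iff_ne_zero, ← Nat.pos_iff_ne_zero, Finset.card_pos]
    exact ⟨k, Finset.mem_filter.2 ⟨hk, by simp⟩⟩
  have hE : ((p : ℚ)⁻¹) ^ z * (p : ℚ) ^ (2 * (cS p n k - 1)) = (p : ℚ) ^ (2 * (cS p n k : ℤ) - z - 2) := by
    rw [inv_pow, ← zpow_natCast, ← zpow_natCast, ← zpow_neg, ← zpow_add₀ hpos.ne']
    congr 1
    push_cast [Nat.cast_sub hc]
    ring
  rw [hE] at h0 h1
  have e0 : q * (pfc (sN n) two P k 0 * (u - b) - pfc (sN n) two P k 1 * a) =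
      pfc (sN n) two P k 0 * (q * u - q * b) - pfc (sN n) two P k 1 * (q * a) := by ring
  rw [e0]
  constructor
  · intro ha hb
    refine n_sub ?_ ?_
    · have h2 : padicNorm p (q * u - q * b) ≤ (p : ℚ) ^ 2 :=
        n_sub (hqu.trans (one_le_pow₀ hp1)) (by simpa using n_mul hq hb)
      refine (n_mul h0 h2).trans_eq ?_
      rw [← zpow_natCast (p : ℚ) 2, ← zpow_add₀ hpos.ne']
      congr 1
      push_cast
      ring
    · have h2 : padicNorm p (q * a) ≤ (p : ℚ) := by simpa using n_mul hq ha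
      refine (n_mul h1 h2).trans_eq ?_
      rw [mul_assoc, ← pow_two, ← zpow_natCast (p : ℚ) 2, ← zpow_add₀ hpos.ne']
      congr 1
      push_cast
      ring
  · intro ha hb
    refine n_sub ?_ ?_
    · have h2 : padicNorm p (q * u - q * b) ≤ 1 :=
        n_sub hqu (by simpa using n_mul hq hb)
      refine (n_mul h0 h2).trans ?_
      rw [mul_one]
      exact zpow_le_zpow_right₀ hp1 (by omega)
    · have h2 : padicNorm p (q * a) ≤ 1 := by simpa using n_mul hq ha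
      refine (n_mul h1 h2).trans_eq ?_
      rw [mul_one, ← zpow_add_one₀ hpos.ne']
      congr 1
      ring

end

end Pool.Agent.QG
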