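import Pool.Agent.H975R2.QG.PM

/-!
# `8G ± 5π²/6`: large primes
-/

open Polynomial

namespace Pool.Agent.QG

open Pool.Agent.H337R2

open Pool.Agent.H397R2.QG (fs NL DET PPn sQ m2 xf xfL NL_apply UInt j0)

noncomputable section

variable {p : ℕ} [hp : Fact p.Prime]

/-- per prime bound of the Hankel determinant from any bound of the entries -/
theorem det_gen {n m : ℕ} (hp2 : 8 * n < p ^ 2) {S : Finset ℕ} (hS : S ⊆ sN n) (hcard : S.card = m)
    (L : ℚ[X] →ₗ[ℚ] ℚ) {q : ℚ} (Y : ℕ → ℤ)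
    (hE : ∀ k ∈ S, ∀ l ∈ S, (padicNorm p (q * L (Pool.Agent.LP.nd (S.erase k) * Pool.Agent.LP.nd (S.erase l)))) ^ 2 ≤
      (p : ℚ) ^ (Y k) * (p : ℚ) ^ (Y l)) :
    padicNorm p (q ^ m * (Pool.Agent.LP.HkQ L m).det) ≤
      (p : ℚ) ^ (∑ k ∈ S, ((cI p S k : ℤ) - 1 + Y k)) := by
  have hpos := pz_pos (p := p)
  set ν : Fin m → ℕ := fun i => S.orderEmbOfFin hcard i with hνdef
  have hν : Function.Injective ν := (S.orderEmbOfFin hcard).injective
  have himg : Finset.univ.image ν = S := Finset.image_orderEmbOfFin_univ _ hcard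
  have hmem : ∀ i : Fin m, ν i ∈ S := fun i => Finset.orderEmbOfFin_mem _ hcard i
  have hP : ∀ F : ℕ → ℚ, ∏ k ∈ S, F k = ∏ i : Fin m, F (ν i) := by
    intro F
    rw [← himg, Finset.prod_image (fun a _ b _ hab => hν hab)]
  have hxinj : Function.Injective (Pool.Agent.LP.xv ν) := by
    intro i j hij
    unfold Pool.Agent.LP.xv at hij
    have h1 : ((ν i : ℕ) : ℚ) = ((ν j : ℕ) : ℚ) := neg_injective hij
    exact hν (by exact_mod_cast h1)
  have h1 := Pool.Agent.LP.norm_hankel_lag (p := p) L (Pool.Agent.LP.xv ν) hxinj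
  have hlag : ∀ i : Fin m, Pool.Agent.LP.lag (Pool.Agent.LP.xv ν) i = Pool.Agent.LP.nd (S.erase (ν i)) := by
    intro i
    rw [Pool.Agent.LP.lag_xv ν hν, himg]
  -- the diagonal products
  have h2 : padicNorm p (∏ i, (Pool.Agent.LP.lag (Pool.Agent.LP.xv ν) i).eval (Pool.Agent.LP.xv ν i)) =
      ∏ k ∈ S, (p : ℚ) ^ (-((cI p S k : ℤ) - 1)) := by
    rw [Pool.Agent.LP.norm_prod, hP]
    refine Finset.prod_congr rfl fun i _ => ?_
    rw [hlag, Pool.Agent.LP.nd_eval, Pool.Agent.LP.norm_prod]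
    have h3 : ∀ j ∈ S.erase (ν i), padicNorm p (Pool.Agent.LP.xv ν i + (j : ℚ)) =
        if (p : ℤ) ∣ (j : ℤ) - (ν i : ℕ) then (p : ℚ)⁻¹ else 1 := by
      intro j hj
      rw [Finset.mem_erase] at hj
      have hj8 := hS hj.2
      have hi8 := hS (hmem i)
      unfold sN at hj8 hi8
      rw [Finset.mem_Icc] at hj8 hi8
      have e1 : Pool.Agent.LP.xv ν i + (j : ℚ) = (((j : ℤ) - (ν i : ℕ) : ℤ) : ℚ) := by
        unfold Pool.Agent.LP.xv
        push_cast
        ring
      have h0 : ((j : ℤ) - (ν i : ℕ)) ≠ 0 := by omega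
      have h2 : |(j : ℤ) - (ν i : ℕ)| < (p : ℤ) ^ 2 := by
        have h3 : ((p : ℤ) ^ 2) = ((p ^ 2 : ℕ) : ℤ) := by push_cast; rfl
        rw [abs_lt, h3]
        constructor <;> omega
      rw [e1]
      exact norm_small h0 h2
    rw [Finset.prod_congr rfl h3, Finset.prod_ite, Finset.prod_const, Finset.prod_const_one, mul_one]
    have h4 : (((S.erase (ν i)).filter fun j : ℕ => (p : ℤ) ∣ (j : ℤ) - (ν i : ℕ)).card : ℤ) = (cI p S (ν i) : ℤ) - 1 := by
      have := cI_erase (p := p) (hmem i) (ν i)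
      have e2 : ic p (ν i) (ν i) = 1 := by unfold ic; simp
      rw [e2] at this
      unfold cI at this ⊢
      omega
    rw [← h4, inv_pow, zpow_neg, zpow_natCast]
  have h5 : (Matrix.of fun i j : Fin m => q * L (Pool.Agent.LP.lag (Pool.Agent.LP.xv ν) i *
      Pool.Agent.LP.lag (Pool.Agent.LP.xv ν) j)).det = q ^ m *
      (Matrix.of fun i j : Fin m => L (Pool.Agent.LP.lag (Pool.Agent.LP.xv ν) i *
      Pool.Agent.LP.lag (Pool.Agent.LP.xv ν) j)).det := by
    have : (Matrix.of fun i j : Fin m => q * L (Pool.Agent.LP.lag (Pool.Agent.LP.xv ν) i *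
      Pool.Agent.LP.lag (Pool.Agent.LP.xv ν) j)) = q • (Matrix.of fun i j : Fin m =>
      L (Pool.Agent.LP.lag (Pool.Agent.LP.xv ν) i * Pool.Agent.LP.lag (Pool.Agent.LP.xv ν) j)) := by
      ext i j
      simp
    rw [this, Matrix.det_smul, Fintype.card_fin]
  have h6 : padicNorm p (Matrix.of fun i j : Fin m => q * L (Pool.Agent.LP.lag (Pool.Agent.LP.xv ν) i *
      Pool.Agent.LP.lag (Pool.Agent.LP.xv ν) j)).det ≤ ∏ k ∈ S, (p : ℚ) ^ Y k := by
    rw [hP]
    refine det_sq _ (fun i => (p : ℚ) ^ Y (ν i)) (fun i => by positivity) fun i j => ?_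
    rw [Matrix.of_apply, hlag, hlag]
    exact hE _ (hmem i) _ (hmem j)
  have h7 : ∏ k ∈ S, (p : ℚ) ^ (-((cI p S k : ℤ) - 1)) ≠ 0 :=
    Finset.prod_ne_zero_iff.2 fun k _ => zpow_ne_zero _ hpos.ne'
  have h8 : (∏ k ∈ S, (p : ℚ) ^ (-((cI p S k : ℤ) - 1))) * padicNorm p (q ^ m * (Pool.Agent.LP.HkQ L m).det) ≤
      ∏ k ∈ S, (p : ℚ) ^ Y k := by
    refine le_trans (le_of_eq ?_) h6
    rw [h5, padicNorm.mul, padicNorm.mul, h1, h2]
    ring
  have h9 : (p : ℚ) ^ (∑ k ∈ S, ((cI p S k : ℤ) - 1 + Y k)) =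
      (∏ k ∈ S, (p : ℚ) ^ (((cI p S k : ℤ) - 1))) * ∏ k ∈ S, (p : ℚ) ^ Y k := by
    rw [← Finset.prod_mul_distrib]
    have hz : ∀ (T : Finset ℕ) (F : ℕ → ℤ), (p : ℚ) ^ (∑ k ∈ T, F k) = ∏ k ∈ T, (p : ℚ) ^ F k := by
      intro T F
      induction T using Finset.induction_on with
      | empty => simp
      | insert a T ha ih => rw [Finset.sum_insert ha, Finset.prod_insert ha, zpow_add₀ hpos.ne', ih]
    rw [hz]
    exact Finset.prod_congr rfl fun k _ => zpow_add₀ hpos.ne' _ _
  rw [h9]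
  have h10 : (∏ k ∈ S, (p : ℚ) ^ (((cI p S k : ℤ) - 1))) * (∏ k ∈ S, (p : ℚ) ^ (-((cI p S k : ℤ) - 1))) = 1 := by
    rw [← Finset.prod_mul_distrib]
    refine Finset.prod_eq_one fun k _ => ?_
    rw [← zpow_add₀ hpos.ne', add_neg_cancel, zpow_zero]
  calc padicNorm p (q ^ m * (Pool.Agent.LP.HkQ L m).det) =
      (∏ k ∈ S, (p : ℚ) ^ (((cI p S k : ℤ) - 1))) *
        ((∏ k ∈ S, (p : ℚ) ^ (-((cI p S k : ℤ) - 1))) * padicNorm p (q ^ m * (Pool.Agent.LP.HkQ L m).det)) := by
        rw [← mul_assoc, h10, one_mul]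
    _ ≤ _ := mul_le_mul_of_nonneg_left h8 (Finset.prod_nonneg fun k _ => by positivity)

lemma cI_single {n : ℕ} (h8 : 8 * n < p) {T : Finset ℕ} (hT : T ⊆ sN n) {j : ℕ} (hj : j ∈ sN n) :
    cI p T j = if j ∈ T then 1 else 0 := by
  unfold cI
  have h : T.filter (fun i : ℕ => (p : ℤ) ∣ (i : ℤ) - j) = T.filter (fun i => i = j) := by
    refine Finset.filter_congr fun i hi => ?_
    have h1 := hT hi
    unfold sN at h1 hj
    rw [Finset.mem_Icc] at h1 hj
    constructor
    · intro hd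
      have : (i : ℤ) - j = 0 := by
        apply Int.eq_zero_of_abs_lt_dvd hd
        rw [abs_lt]
        constructor <;> omega
      omega
    · rintro rfl
      simp
  rw [h, Finset.filter_eq']
  split_ifs <;> simp

/-- radius one -/
lemma PB1_prod {ι : Type*} (s : Finset ι) (a : ι → ℤ) (k : ℕ) :
    PB p 1 1 (TS (-(k : ℚ)) (∏ i ∈ s, (X + C ((a i : ℤ) : ℚ)))) := by
  rw [map_prod]
  have h := PB.prod (p := p) (ρ := 1) s (fun _ => (1 : ℚ)) (fun i => TS (-(k : ℚ)) (X + C ((a i : ℤ) : ℚ)))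
    zero_le_one (fun _ _ => zero_le_one) fun i _ => by
      rw [TS_lin]
      have h2 : -(k : ℚ) + ((a i : ℤ) : ℚ) = ((a i - k : ℤ) : ℚ) := by push_cast; ring
      rw [h2]
      exact PB.linX zero_le_one zero_le_one (padicNorm.of_int _) (by norm_num)
  rwa [Finset.prod_const_one] at h

lemma PB1_nd (S : Finset ℕ) (j : ℕ) : PB p 1 1 (TS (-(j : ℚ)) (Pool.Agent.LP.nd S)) := by
  have h := PB1_prod (p := p) S (fun i => (i : ℤ)) j
  unfold Pool.Agent.LP.nd
  simpa using h

lemma pfc_one {n k : ℕ} (h8 : 8 * n < p) (hk : k ∈ sN n) (P : ℚ[X]) (hP : PB p 1 1 (TS (-(k : ℚ)) P)) (j : ℕ) :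
    padicNorm p (pfc (sN n) two P k j) ≤ 1 := by
  have h1 := pfc_bound (sN n) two P k 1 1 (fun _ => (1 : ℚ)) zero_le_one zero_le_one hP (fun m hm _ => ?_)
    (fun m _ => zero_le_one) j
  · simpa using h1
  · unfold sN at hm hk
    rw [Finset.mem_erase, Finset.mem_Icc] at hm
    rw [Finset.mem_Icc] at hk
    have h2 : ¬ (p : ℤ) ∣ (m : ℤ) - k := by
      intro hd
      have : (m : ℤ) - k = 0 := by
        apply Int.eq_zero_of_abs_lt_dvd hd
        rw [abs_lt]
        constructor <;> omega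
      omega
    have h3 : padicNorm p ((m : ℚ) - k) = 1 := by
      have := (padicNorm.int_eq_one_iff (p := p) ((m : ℤ) - k)).2 h2
      push_cast at this
      exact this
    rw [h3, inv_one]
    exact ⟨le_rfl, le_rfl⟩

/-- large primes -/
theorem P_big {n σ q : ℕ} {u : ℚ} (hσ : σ = 1 ∨ σ = 3) (hu : UInt q u) (hn : 1 ≤ n) (h8 : 8 * n < p) :
    padicNorm p ((q : ℚ) ^ (7 * n) * DET n σ u (7 * n)) ≤ (p : ℚ) ^ (2 * (8 * n - j0 σ p)) := by
  have hpos := pz_pos (p := p)
  have hp1 : (1 : ℚ) ≤ p := by exact_mod_cast hp.out.one_le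
  have hσ3 : σ ≤ 3 := by rcases hσ with rfl | rfl <;> norm_num
  have hσ1 : 1 ≤ σ := by rcases hσ with rfl | rfl <;> norm_num
  have hp2 : 32 * n + 3 < p ^ 2 := by nlinarith
  have hjn : n ≤ j0 σ p := by
    unfold j0
    rcases hσ with rfl | rfl <;> split_ifs <;> omega
  have hjp := j0_lt (p := p) hσ (by omega)
  set S : Finset ℕ := Finset.Icc (n + 1) (8 * n) with hSdef
  have hS : S ⊆ sN n := by
    intro k hk
    rw [hSdef, Finset.mem_Icc] at hk
    unfold sN
    rw [Finset.mem_Icc]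
    omega
  have hcard : S.card = 7 * n := by rw [hSdef, Nat.card_Icc]; omega
  obtain ⟨_, z, hz⟩ := hu
  have hq : padicNorm p (q : ℚ) ≤ 1 := padicNorm.of_nat q
  have hqu : padicNorm p ((q : ℚ) * u) ≤ 1 := by rw [hz]; exact padicNorm.of_int z
  have hfs : ∀ j ∈ sN n, padicNorm p (fs σ 1 j) ≤ p ∧ padicNorm p (fs σ 2 j) ≤ (p : ℚ) ^ 2 := by
    intro j hj
    unfold sN at hj
    rw [Finset.mem_Icc] at hj
    exact fs_med hσ3 hσ1 hp2 hj.2
  have hgen := det_gen (p := p) (n := n) (m := 7 * n) (by omega) hS hcard (NL n σ u) (q := (q : ℚ))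
    (fun k => if k ≤ j0 σ p then 0 else 2) (fun k hk l hl => ?_)
  · rw [DET_eq]
    refine hgen.trans_eq ?_
    rw [← zpow_natCast]
    congr 1
    have h1 : ∀ k ∈ S, ((cI p S k : ℤ) - 1 + (if k ≤ j0 σ p then 0 else 2)) = if k ≤ j0 σ p then 0 else 2 := by
      intro k hk
      rw [cI_single h8 hS (hS hk), if_pos hk]
      push_cast
      ring
    rw [Finset.sum_congr rfl h1, Finset.sum_ite, Finset.sum_const_zero, zero_add, Finset.sum_const]
    have h2 : S.filter (fun k => ¬ k ≤ j0 σ p) = Finset.Icc (j0 σ p + 1) (8 * n) := by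
      ext k
      simp only [hSdef, Finset.mem_filter, Finset.mem_Icc]
      omega
    rw [h2, Nat.card_Icc, nsmul_eq_mul]
    push_cast
    ring
  · -- the entries
    set b : ℕ → ℤ := fun k => if k ≤ j0 σ p then 0 else 1 with hb
    have key : padicNorm p ((q : ℚ) * NL n σ u (Pool.Agent.LP.nd (S.erase k) * Pool.Agent.LP.nd (S.erase l))) ≤
        (p : ℚ) ^ (b k + b l) := by
      rw [NL_xg]
      unfold xg
      rw [Finset.mul_sum]
      have hb0 : ∀ i, 0 ≤ b i := fun i => by rw [hb]; dsimp only; split_ifs <;> norm_num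
      refine padicNorm.sum_le' (fun j hj => ?_) (by positivity)
      by_cases hjj : j ≤ j0 σ p
      · -- integral node
        have hf := fs_small (p := p) (σ := σ) (k := j) (by omega) (fun i hi => j0_dvd hσ (by omega) (by omega))
        have hPB : PB p 1 1 (TS (-(j : ℚ)) (UU n * (Pool.Agent.LP.nd (S.erase k) * Pool.Agent.LP.nd (S.erase l)))) := by
          rw [map_mul, map_mul]
          have hU : PB p 1 1 (TS (-(j : ℚ)) (UU n)) := PB1_prod (Finset.range (2 * n)) (fun i => -(i : ℤ)) j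
          have h1 := PB.mul zero_le_one zero_le_one zero_le_one (PB1_nd (p := p) (S.erase k) j)
            (PB1_nd (p := p) (S.erase l) j)
          rw [one_mul] at h1
          have h2 := PB.mul zero_le_one zero_le_one zero_le_one hU h1
          rwa [one_mul] at h2
        have c0 := pfc_one h8 hj _ hPB 0
        have c1 := pfc_one h8 hj _ hPB 1
        refine le_trans ?_ (one_le_zpow₀ hp1 (add_nonneg (hb0 k) (hb0 l)))
        have e0 : ∀ A B : ℚ, (q : ℚ) * (A * (u - fs σ 2 j) - B * fs σ 1 j) =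
            A * (q * u - q * fs σ 2 j) - B * (q * fs σ 1 j) := by intro A B; ring
        rw [e0]
        refine n_sub ?_ ?_
        · have h2 : padicNorm p ((q : ℚ) * u - q * fs σ 2 j) ≤ 1 :=
            n_sub hqu (by simpa using n_mul hq hf.2)
          simpa using n_mul c0 h2
        · have h2 : padicNorm p ((q : ℚ) * fs σ 1 j) ≤ 1 := by simpa using n_mul hq hf.1
          simpa using n_mul c1 h2
      · have hjS : j ∈ S := by
          unfold sN at hj
          rw [Finset.mem_Icc] at hj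
          rw [hSdef, Finset.mem_Icc]
          omega
        have hn1 := (node_le (p := p) (by omega) hj _ (a := fs σ 1 j) (b := fs σ 2 j)
          (PB_entry n hk hl j) hq hqu).1 (hfs j hj).1 (hfs j hj).2
        refine hn1.trans (zpow_le_zpow_right₀ hp1 ?_)
        have hcS : cS p n j = 1 := by
          have := cI_single h8 (Finset.Subset.refl (sN n)) hj
          rw [if_pos hj] at this
          exact this
        have e1 := cI_single h8 ((Finset.erase_subset k S).trans hS) hj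
        have e2 := cI_single h8 ((Finset.erase_subset l S).trans hS) hj
        rw [hcS, e1, e2]
        simp only [Finset.mem_erase, hjS, and_true]
        rw [hb]
        dsimp only
        push_cast
        by_cases hjk : j = k
        · have hk' : ¬ k ≤ j0 σ p := by rw [← hjk]; exact hjj
          by_cases hjl : j = l
          · have hl' : ¬ l ≤ j0 σ p := by rw [← hjl]; exact hjj
            rw [if_neg (by simpa using hjk), if_neg (by simpa using hjl), if_neg hk', if_neg hl']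
            omega
          · rw [if_neg (by simpa using hjk), if_pos hjl, if_neg hk']
            split_ifs <;> omega
        · by_cases hjl : j = l
          · have hl' : ¬ l ≤ j0 σ p := by rw [← hjl]; exact hjj
            rw [if_pos hjk, if_neg (by simpa using hjl), if_neg hl']
            split_ifs <;> omega
          · rw [if_pos hjk, if_pos hjl]
            split_ifs <;> omega
    calc _ ≤ ((p : ℚ) ^ (b k + b l)) ^ 2 := pow_le_pow_left₀ (padicNorm.nonneg _) key 2
      _ = (p : ℚ) ^ (b k * 2) * (p : ℚ) ^ (b l * 2) := by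
        rw [← zpow_natCast, ← zpow_mul, ← zpow_add₀ hpos.ne']
        congr 1
        push_cast
        ring
      _ = _ := by
        rw [hb]
        congr 2 <;> (dsimp only; split_ifs <;> norm_num)

end

end Pool.Agent.QG
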