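import Pool.Agent.H975R2.QG.Br

/-!
# `8G ± 5π²/6`: counting
-/

namespace Pool.Agent.QG

open Pool.Agent.H337R2

/-- indicator of the first `l` classes after `C` -/
def fc (p C l k : ℕ) : ℤ := if ((k : ℤ) - C - 1) % p < l then 1 else 0

lemma cnt_len {p : ℕ} (hp : 0 < p) (C l0 lz k : ℕ) (hl : lz < p) :
    (cnt p (C + 1) (C + (l0 * p + lz)) k : ℤ) = l0 + fc p C lz k := by
  rw [cnt_eq p _ _ k hp (by omega)]
  have hp' : (0 : ℤ) < p := by exact_mod_cast hp
  set y : ℤ := (k : ℤ) - C - 1 with hy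
  have h1 := Int.emod_add_mul_ediv y p
  have h2 := Int.emod_nonneg y hp'.ne'
  have h3 := Int.emod_lt_of_pos y hp'
  have e1 : (((C + 1 : ℕ) : ℤ) - 1 - k) / p = - (y / p) - 1 := by
    have : ((C + 1 : ℕ) : ℤ) - 1 - k = (p - 1 - y % p) + p * (-(y / p) - 1) := by push_cast; linarith
    rw [this, Int.add_mul_ediv_left _ _ hp'.ne', Int.ediv_eq_zero_of_lt (by linarith) (by linarith)]
    ring
  have e2 : (((C + (l0 * p + lz) : ℕ) : ℤ) - k) / p = l0 + (-(y / p)) + (if y % p < lz then 0 else -1) := by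
    have : ((C + (l0 * p + lz) : ℕ) : ℤ) - k = (lz - 1 - y % p) + p * (l0 + (-(y / p))) := by
      push_cast; linarith
    rw [this, Int.add_mul_ediv_left _ _ hp'.ne']
    split_ifs with h
    · rw [Int.ediv_eq_zero_of_lt (by omega) (by omega)]; ring
    · have h4 : (lz : ℤ) - 1 - y % p = (lz - 1 - y % p + p) + p * (-1) := by ring
      rw [h4, Int.add_mul_ediv_left _ _ hp'.ne', Int.ediv_eq_zero_of_lt (by omega) (by omega)]
      ring
  rw [e1, e2]
  unfold fc
  rw [← hy]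
  split_ifs <;> ring

lemma cnt_symm (p A B C D : ℕ) :
    ∑ k ∈ Finset.Icc A B, cnt p C D k = ∑ j ∈ Finset.Icc C D, cnt p A B j := by
  unfold cnt
  simp_rw [Finset.card_filter]
  rw [Finset.sum_comm]
  refine Finset.sum_congr rfl fun j _ => Finset.sum_congr rfl fun k _ => ?_
  have : ((p : ℤ) ∣ (j : ℤ) - k) ↔ ((p : ℤ) ∣ (k : ℤ) - j) := dvd_sub_comm
  simp only [this]

lemma sum_cnt {p : ℕ} (hp : 0 < p) (A m0 mz C l0 lz : ℕ) (hm : mz < p) (hl : lz < p) :
    ∑ k ∈ Finset.Icc (A + 1) (A + (m0 * p + mz)), (cnt p (C + 1) (C + (l0 * p + lz)) k : ℤ) =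
      ((m0 * p + mz) * l0 + lz * m0 : ℤ) + ∑ j ∈ Finset.Icc (C + 1) (C + lz), fc p A mz j := by
  have h1 : ∀ k, (cnt p (C + 1) (C + (l0 * p + lz)) k : ℤ) = l0 + (cnt p (C + 1) (C + lz) k : ℤ) := by
    intro k
    rw [cnt_len hp C l0 lz k hl]
    have := cnt_len hp C 0 lz k hl
    rw [zero_mul, zero_add] at this
    rw [this]
    push_cast
    ring
  rw [Finset.sum_congr rfl fun k _ => h1 k, Finset.sum_add_distrib, Finset.sum_const, Nat.card_Icc]
  have h2 : ∑ k ∈ Finset.Icc (A + 1) (A + (m0 * p + mz)), (cnt p (C + 1) (C + lz) k : ℤ) =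
      ∑ j ∈ Finset.Icc (C + 1) (C + lz), (cnt p (A + 1) (A + (m0 * p + mz)) j : ℤ) := by
    exact_mod_cast cnt_symm p (A + 1) (A + (m0 * p + mz)) (C + 1) (C + lz)
  rw [h2, Finset.sum_congr rfl fun j _ => cnt_len hp A m0 mz j hm, Finset.sum_add_distrib, Finset.sum_const,
    Nat.card_Icc]
  have h3 : A + (m0 * p + mz) + 1 - (A + 1) = m0 * p + mz := by omega
  have h4 : C + lz + 1 - (C + 1) = lz := by omega
  rw [h3, h4, nsmul_eq_mul, nsmul_eq_mul]
  push_cast
  ring

lemma fc_same {p : ℕ} (A lz mz : ℕ) (hl : lz < p) :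
    ∑ j ∈ Finset.Icc (A + 1) (A + lz), fc p A mz j = ((min lz mz : ℕ) : ℤ) := by
  have h1 : ∀ j ∈ Finset.Icc (A + 1) (A + lz), fc p A mz j = if j ≤ A + mz then 1 else 0 := by
    intro j hj
    rw [Finset.mem_Icc] at hj
    unfold fc
    have : ((j : ℤ) - A - 1) % p = (j : ℤ) - A - 1 := Int.emod_eq_of_lt (by omega) (by omega)
    rw [this]
    split_ifs <;> omega
  rw [Finset.sum_congr rfl h1, ← Finset.sum_filter, Finset.sum_const]
  have h2 : (Finset.Icc (A + 1) (A + lz)).filter (fun j => j ≤ A + mz) = Finset.Icc (A + 1) (A + min lz mz) := by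
    ext j
    simp only [Finset.mem_filter, Finset.mem_Icc]
    omega
  rw [h2, Nat.card_Icc, nsmul_eq_mul, mul_one]
  congr 1
  omega

lemma fc_shift {p : ℕ} (a rz sz : ℕ) (ha : a + rz = p ∨ rz = 0) (hs : sz < p) :
    ∑ j ∈ Finset.Icc (a + 1) (a + rz), fc p 0 sz j = ((sz + rz - p : ℕ) : ℤ) := by
  rcases ha with ha | ha
  · have h1 : ∀ j ∈ Finset.Icc (a + 1) (a + rz), fc p 0 sz j = if j ≤ sz then 1 else 0 := by
      intro j hj
      rw [Finset.mem_Icc] at hj
      unfold fc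
      have : ((j : ℤ) - (0 : ℕ) - 1) % p = (j : ℤ) - 1 := by
        push_cast
        rw [sub_zero]
        exact Int.emod_eq_of_lt (by omega) (by omega)
      rw [this]
      split_ifs <;> omega
    rw [Finset.sum_congr rfl h1, ← Finset.sum_filter, Finset.sum_const]
    have h2 : (Finset.Icc (a + 1) (a + rz)).filter (fun j => j ≤ sz) = Finset.Icc (a + 1) sz := by
      ext j
      simp only [Finset.mem_filter, Finset.mem_Icc]
      omega
    rw [h2, Nat.card_Icc, nsmul_eq_mul, mul_one]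
    congr 1
    omega
  · subst ha
    rw [add_zero, Finset.Icc_eq_empty (by omega), Finset.sum_empty]
    symm
    exact_mod_cast (by omega : sz + 0 - p = 0)

/-- shift of the residue -/
def av (n p : ℕ) : ℕ := (p - 2 * n % p) % p

lemma av_spec {n p : ℕ} (hp : 0 < p) : av n p + 2 * n % p = p ∨ 2 * n % p = 0 := by
  unfold av
  have := Nat.mod_lt (2 * n) hp
  rcases Nat.eq_zero_or_pos (2 * n % p) with h | h
  · right; exact h
  · left
    rw [Nat.mod_eq_of_lt (by omega)]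
    omega

lemma av_dvd {n p : ℕ} (hp : 0 < p) : p ∣ av n p + 2 * n := by
  have h1 : av n p + 2 * n = (av n p + 2 * n % p) + p * (2 * n / p) := by
    have := Nat.mod_add_div (2 * n) p
    omega
  rw [h1]
  refine dvd_add ?_ (dvd_mul_right _ _)
  rcases av_spec (n := n) hp with h | h
  · rw [h]
  · unfold av
    rw [h]
    simp

lemma av_le {n p : ℕ} (hp : 0 < p) (hn : 1 ≤ n) (h8 : p ≤ 8 * n) : av n p + n ≤ 8 * n := by
  unfold av
  have h1 : (p - 2 * n % p) % p < p := Nat.mod_lt _ hp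
  rcases Nat.lt_or_ge (2 * n) p with h | h
  · rw [Nat.mod_eq_of_lt h] at h1 ⊢
    rw [Nat.mod_eq_of_lt (by omega)]
    omega
  · omega

/-- zeros as a count on an interval -/
lemma rU_cnt {n p : ℕ} (hp : 0 < p) (k : ℕ) : rU p n k = cnt p (av n p + 1) (av n p + 2 * n) k := by
  unfold rU cnt
  have hd : (p : ℤ) ∣ ((av n p + 2 * n : ℕ) : ℤ) := by exact_mod_cast av_dvd hp
  push_cast at hd
  refine Finset.card_nbij' (fun i => av n p + 2 * n - i) (fun m => av n p + 2 * n - m) ?_ ?_ ?_ ?_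
  · intro i hi
    simp only [Finset.coe_filter, Finset.mem_range, Finset.mem_Icc, Set.mem_setOf_eq] at hi ⊢
    refine ⟨by omega, ?_⟩
    have : ((av n p + 2 * n - i : ℕ) : ℤ) - k = (av n p + 2 * n) + (-(i : ℤ) - k) := by
      rw [Nat.cast_sub (by omega)]; push_cast; ring
    rw [this]
    exact dvd_add hd hi.2
  · intro m hm
    simp only [Finset.coe_filter, Finset.mem_range, Finset.mem_Icc, Set.mem_setOf_eq] at hm ⊢
    refine ⟨by omega, ?_⟩
    have : -((av n p + 2 * n - m : ℕ) : ℤ) - k = ((m : ℤ) - k) - (av n p + 2 * n) := by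
      rw [Nat.cast_sub (by omega)]; push_cast; ring
    rw [this]
    exact dvd_sub hm.2 hd
  · intro i hi
    simp only [Finset.coe_filter, Finset.mem_range, Set.mem_setOf_eq] at hi ⊢
    omega
  · intro m hm
    simp only [Finset.coe_filter, Finset.mem_Icc, Set.mem_setOf_eq] at hm ⊢
    omega

end Pool.Agent.QG
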